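import Pool.Agent.Y298.EX.Stm

/-!
# Project EX: the trap around a periodic critical point
-/

set_option autoImplicit false

open Set Filter Metric MeasureTheory Topology

namespace Pool.Agent.Y833.EX

open Pool.Agent.Y298.EX Pool.Agent.Y298.SH

theorem t (hP : S_PTWO) (hQ : S_QUAD) : S_PATT := by
  intro d C₁ lam θ B Ca hd hPC c₀ hc s Gb k m hs hs1 hpass hGb hGb1 a κ w n σ ρ η ϱ ha hw hcrit hκ0
    hn hgn hbd hσ hσ1 hsσ hκσ hρ hρσ hη hηs hϱ hϱs hb1 hb2 q hq hq1 hq2 z hz
  have hz' : ‖z - κ‖ ≤ ρ := by rwa [mem_closedBall, dist_eq_norm] at hz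
  have hz8 : z ∈ ball (0 : ℂ) 8 := by
    rw [mem_ball, dist_zero_right]
    have h1 : ‖z‖ ≤ ‖z - κ‖ + ‖κ‖ := by
      have := norm_add_le (z - κ) κ
      rwa [sub_add_cancel] at this
    linarith
  have h1 := hQ d a κ (s / 4) σ ρ hd ha (by linarith) hσ hσ1 (by linarith) hκσ hcrit hρ.le hρσ z hz
  have hy : ‖(z ^ d + q z) - w‖ ≤ ϱ := by
    have e : (z ^ d + q z) - w = ((z ^ d + a z) - (κ ^ d + a κ)) + (q z - (w + a z)) := by
      rw [hκ0]; ring
    rw [e, hϱ]
    exact (norm_add_le _ _).trans (add_le_add h1 (hq1 z hz8))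
  have hwc : ‖w - c₀‖ ≤ s / 4 := by
    rw [mem_ball, dist_eq_norm] at hw
    exact hw.le
  have hder : ∀ z : ℂ, deriv (fun z => w + a z) z = deriv a z := fun z => deriv_const_add w
  have h2 := hP d C₁ lam θ B Ca hd hPC c₀ hc s Gb k m hs hs1 hpass hGb hGb1 (fun z => w + a z) q η
    (ha.hol.const_add w) hq (fun z hz => by
      have e : w + a z - c₀ = (w - c₀) + a z := by ring
      rw [e]
      have := norm_add_le (w - c₀) (a z)
      have := ha.le z hz
      linarith) (fun z hz => by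
      rw [hder]
      have := ha.dle z hz
      linarith) hq1 (fun z hz => by
      rw [hder]
      exact hq2 z hz) hη hηs w (z ^ d + q z) ϱ (by
      rw [mem_ball, dist_eq_norm]
      linarith) hy hϱs hbd hb1 n hn
  rw [mem_ball, dist_eq_norm, Function.iterate_succ_apply]
  have e : (fun z => z ^ d + (fun z => w + a z) z)^[n] w = κ := hgn
  rw [e] at h2
  exact lt_of_le_of_lt h2 hb2

end Pool.Agent.Y833.EX
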